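import Pool.Agent.helper84.VD.SpecB5

/-!
# VD, row vd:BDV: recentering a disc
-/

set_option autoImplicit false

open scoped ContDiff Topology InnerProductSpace ENNReal
open MeasureTheory Filter Set

namespace Pool.Agent.VD

noncomputable section

lemma BDV_norm {m : ℕ} (v : W m) : ‖((0 : W m), v)‖ = ‖v‖ := by
  rw [Prod.norm_mk, norm_zero, max_eq_right (norm_nonneg v)]

/-- the geometric part: for every point of the left set there is a point of `BD` with the same image -/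
lemma BDV_geo (m : ℕ) (c C e0 e1 : ℝ) (S : Set (P (m + 1))) (D : P (m + 1) → P (m + 1) → ℝ)
    (Φ : ℝ → P (m + 1) → P (m + 1)) (κ : P (m + 1) → Z m → P (m + 1)) (hS : SEC c C e0 e1 S D Φ κ)
    (hD : ∀ p q, 0 ≤ D p q ∧ D p p = 0 ∧ D p q = D q p) (hT : ∀ p q r, D p r ≤ D p q + D q r)
    (h0 : ∀ p, Φ 0 p = p) (z : P (m + 1)) (l : ℝ) (N : ℕ) (ρ s : ℝ) (v0 : W m) (hz : z ∈ S)
    (hs : 0 < s) (hv0 : ‖v0‖ ≤ s) (hs1 : s ≤ e1) (hs2 : 2 * C * s ≤ e0) (hs3 : 2 * C ^ 2 * s ≤ ρ)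
    (hs4 : 2 * C ^ 2 * s ≤ e1) (w : W m) (hw : ‖w‖ ≤ e0)
    (hw2 : ∀ i ≤ N, D (Φ (i * l) (κ z (0, v0))) (Φ (i * l) (κ (κ z (0, v0)) (0, w))) ≤ s) :
    ∃ v : W m, κ (κ z (0, v0)) (0, w) = κ z (0, v) ∧ ‖v‖ ≤ e1 ∧ v ∈ BD D Φ κ z l N ρ s v0 := by
  have hC : 1 ≤ C := hS.C1
  have he01 : e0 ≤ e1 := by
    have h1 := hS.el
    have h2 := hS.ep
    nlinarith
  have hn0 : ‖((0 : W m), v0)‖ ≤ e1 := by
    rw [BDV_norm]
    exact hv0.trans hs1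
  have hnw : ‖((0 : W m), w)‖ ≤ e1 := by
    rw [BDV_norm]
    exact hw.trans he01
  have hz0 : κ z (0, v0) ∈ S := hS.mem z hz _ hn0
  have hu : κ (κ z (0, v0)) (0, w) ∈ S := hS.mem _ hz0 _ hnw
  have hb0 : (κ z (0, v0)).1 = z.1 := (hS.bas z hz _ hn0).2 rfl
  have hbu : (κ (κ z (0, v0)) (0, w)).1 = z.1 := by
    rw [(hS.bas _ hz0 _ hnw).2 rfl, hb0]
  have hd1 : D z (κ z (0, v0)) ≤ C * s := by
    have h1 := hS.cmp z hz 0 (0, v0) (by rw [norm_zero]; exact hs.le.trans hs1) hn0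
    rw [hS.zero z hz, zero_sub, norm_neg, BDV_norm] at h1
    exact h1.trans (mul_le_mul_of_nonneg_left hv0 (by linarith))
  have hd2 : D (κ z (0, v0)) (κ (κ z (0, v0)) (0, w)) ≤ s := by
    have h1 := hw2 0 (Nat.zero_le _)
    rw [Nat.cast_zero, zero_mul, h0, h0] at h1
    exact h1
  have hd3 : D z (κ (κ z (0, v0)) (0, w)) ≤ 2 * C * s := by
    have h1 := hT z (κ z (0, v0)) (κ (κ z (0, v0)) (0, w))
    nlinarith
  obtain ⟨v, hv1, hv2⟩ := hS.ver z hz _ hu hbu (hd3.trans hs2)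
  have hv3 : ‖v‖ ≤ 2 * C ^ 2 * s := by
    have h1 : C * D z (κ (κ z (0, v0)) (0, w)) ≤ C * (2 * C * s) :=
      mul_le_mul_of_nonneg_left hd3 (by linarith)
    nlinarith
  refine ⟨v, hv1, hv3.trans hs4, ?_⟩
  unfold BD
  refine ⟨hv3.trans hs3, ?_⟩
  intro i hi
  rw [← hv1]
  exact hw2 i hi

/-- the Lipschitz estimate -/
lemma BDV_lip (m : ℕ) (c C e0 e1 : ℝ) (S : Set (P (m + 1))) (D : P (m + 1) → P (m + 1) → ℝ)
    (Φ : ℝ → P (m + 1) → P (m + 1)) (κ : P (m + 1) → Z m → P (m + 1)) (hS : SEC c C e0 e1 S D Φ κ)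
    (h0 : ∀ p, Φ 0 p = p) (z z0 : P (m + 1)) (hz : z ∈ S) (hz0 : z0 ∈ S) (w1 w2 v1 v2 : W m)
    (hw1 : ‖w1‖ ≤ e1) (hw2 : ‖w2‖ ≤ e1) (hv1 : ‖v1‖ ≤ e1) (hv2 : ‖v2‖ ≤ e1)
    (h1 : κ z0 (0, w1) = κ z (0, v1)) (h2 : κ z0 (0, w2) = κ z (0, v2)) :
    ‖w1 - w2‖ ≤ C ^ 2 * ‖v1 - v2‖ := by
  have hC : 1 ≤ C := hS.C1
  have he1 : 0 ≤ e1 := (norm_nonneg _).trans hw1
  have e2 := hS.inj z0 hz0 (0, w1) (0, w2) 0 0 (by rw [BDV_norm]; exact hw1)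
    (by rw [BDV_norm]; exact hw2) (by rw [abs_zero]; exact he1) (by rw [abs_zero]; exact he1)
  rw [h0, h0, sub_zero, abs_zero, add_zero, h1, h2] at e2
  have e3 := hS.cmp z hz (0, v1) (0, v2) (by rw [BDV_norm]; exact hv1)
    (by rw [BDV_norm]; exact hv2)
  have e4 : ‖((0 : W m), w1) - ((0 : W m), w2)‖ = ‖w1 - w2‖ := by
    rw [Prod.mk_sub_mk, sub_zero, BDV_norm]
  have e5 : ‖((0 : W m), v1) - ((0 : W m), v2)‖ = ‖v1 - v2‖ := by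
    rw [Prod.mk_sub_mk, sub_zero, BDV_norm]
  rw [e4] at e2
  rw [e5] at e3
  have e6 : C * D (κ z (0, v1)) (κ z (0, v2)) ≤ C * (C * ‖v1 - v2‖) :=
    mul_le_mul_of_nonneg_left e3 (by linarith)
  nlinarith

theorem BDV_proof (hVLP : VDG.VLP_stmt) : BDV_stmt := by
  intro m c C e0 e1 hc hC he0 he1
  obtain ⟨k, hk, hL⟩ := hVLP (W m) (W m) rfl
  have hC2 : 0 < C ^ 2 := by positivity
  have hkC : 0 ≤ k * (C ^ 2) ^ Module.finrank ℝ (W m) := by positivity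
  have p1 : 0 ≤ 2 * C ^ 2 / e1 := by positivity
  have p2 : 0 ≤ 2 * C / e0 := by positivity
  refine ⟨1 + k * (C ^ 2) ^ Module.finrank ℝ (W m) + 2 * C ^ 2 / e1 + 2 * C / e0 + 2 * C ^ 2,
    by linarith, ?_⟩
  intro S D Φ κ hS hD hT h0 z l N ρ s v0 hz hs hv0 hρ h1
  obtain ⟨M, hM⟩ : ∃ M, M = 1 + k * (C ^ 2) ^ Module.finrank ℝ (W m) + 2 * C ^ 2 / e1 +
    2 * C / e0 + 2 * C ^ 2 := ⟨_, rfl⟩
  rw [← hM] at hρ h1 ⊢
  have hs4 : 2 * C ^ 2 * s ≤ e1 := by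
    have q1 : 2 * C ^ 2 / e1 ≤ M := by linarith
    have q2 : 2 * C ^ 2 / e1 * s ≤ 1 := (mul_le_mul_of_nonneg_right q1 hs.le).trans h1
    have q3 : 2 * C ^ 2 / e1 * s = 2 * C ^ 2 * s / e1 := by ring
    rw [q3, div_le_one he1] at q2
    exact q2
  have hs2 : 2 * C * s ≤ e0 := by
    have q1 : 2 * C / e0 ≤ M := by linarith
    have q2 : 2 * C / e0 * s ≤ 1 := (mul_le_mul_of_nonneg_right q1 hs.le).trans h1
    have q3 : 2 * C / e0 * s = 2 * C * s / e0 := by ring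
    rw [q3, div_le_one he0] at q2
    exact q2
  have hs3 : 2 * C ^ 2 * s ≤ ρ := by
    have q1 : 2 * C ^ 2 ≤ M := by linarith
    exact (mul_le_mul_of_nonneg_right q1 hs.le).trans hρ
  have hs1 : s ≤ e1 := by
    have q1 : 1 ≤ C ^ 2 := by nlinarith
    nlinarith
  have he01 : e0 ≤ e1 := by
    have h1 := hS.el
    nlinarith
  obtain ⟨A, hA⟩ : ∃ A : Set (W m), A = {w : W m | ‖w‖ ≤ e0 ∧ ∀ i ≤ N,
    D (Φ (i * l) (κ z (0, v0))) (Φ (i * l) (κ (κ z (0, v0)) (0, w))) ≤ s} := ⟨_, rfl⟩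
  rw [← hA]
  have hAm : ∀ w ∈ A, ‖w‖ ≤ e0 ∧ ∀ i ≤ N,
      D (Φ (i * l) (κ z (0, v0))) (Φ (i * l) (κ (κ z (0, v0)) (0, w))) ≤ s := by
    intro w hw
    rw [hA] at hw
    exact hw
  have hz0 : κ z (0, v0) ∈ S := hS.mem z hz _ (by rw [BDV_norm]; exact hv0.trans hs1)
  have hex : ∀ w : W m, ∃ v : W m, w ∈ A → κ (κ z (0, v0)) (0, w) = κ z (0, v) ∧ ‖v‖ ≤ e1 ∧
      v ∈ BD D Φ κ z l N ρ s v0 := by
    intro w
    by_cases hw : w ∈ A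
    · obtain ⟨v, hv⟩ := BDV_geo m c C e0 e1 S D Φ κ hS hD hT h0 z l N ρ s v0 hz hs hv0 hs1 hs2 hs3
        hs4 w (hAm w hw).1 (hAm w hw).2
      exact ⟨v, fun _ => hv⟩
    · exact ⟨0, fun h => absurd h hw⟩
  choose g hg using hex
  have hinv : ∀ v : W m, ∃ w : W m, v ∈ g '' A → w ∈ A ∧ g w = v := by
    intro v
    by_cases hv : v ∈ g '' A
    · obtain ⟨w, hw, hwv⟩ := hv
      exact ⟨w, fun _ => ⟨hw, hwv⟩⟩
    · exact ⟨0, fun h => absurd h hv⟩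
  choose f hf using hinv
  have hlip : ∀ w1 ∈ A, ∀ w2 ∈ A, ‖w1 - w2‖ ≤ C ^ 2 * ‖g w1 - g w2‖ := by
    intro w1 hw1 w2 hw2
    exact BDV_lip m c C e0 e1 S D Φ κ hS h0 z (κ z (0, v0)) hz hz0 w1 w2 (g w1) (g w2)
      ((hAm w1 hw1).1.trans he01) ((hAm w2 hw2).1.trans he01) (hg w1 hw1).2.1 (hg w2 hw2).2.1
      (hg w1 hw1).1 (hg w2 hw2).1
  have hfl : ∀ x ∈ g '' A, ∀ y ∈ g '' A, ‖f x - f y‖ ≤ C ^ 2 * ‖x - y‖ := by
    intro x hx y hy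
    have h2 := hlip (f x) (hf x hx).1 (f y) (hf y hy).1
    rw [(hf x hx).2, (hf y hy).2] at h2
    exact h2
  have hsub : A ⊆ f '' (g '' A) := by
    intro w hw
    refine ⟨g w, ⟨w, hw, rfl⟩, ?_⟩
    have hgw : g w ∈ g '' A := ⟨w, hw, rfl⟩
    have h2 := hlip (f (g w)) (hf _ hgw).1 w hw
    rw [(hf _ hgw).2, sub_self, norm_zero, mul_zero] at h2
    exact sub_eq_zero.1 (norm_le_zero_iff.1 h2)
  have hsub2 : g '' A ⊆ BD D Φ κ z l N ρ s v0 := by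
    rintro v ⟨w, hw, rfl⟩
    exact (hg w hw).2.2
  have hv := hL f (g '' A) (C ^ 2) hC2.le hfl
  calc volume A ≤ volume (f '' (g '' A)) := measure_mono hsub
    _ ≤ ENNReal.ofReal (k * (C ^ 2) ^ Module.finrank ℝ (W m)) * volume (g '' A) := hv
    _ ≤ ENNReal.ofReal M * volume (BD D Φ κ z l N ρ s v0) := by
        refine mul_le_mul' (ENNReal.ofReal_le_ofReal (by linarith)) (measure_mono hsub2)

end

end Pool.Agent.VD
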