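import Pool.Agent.helper80.VD.SpecD

/-! # Row vd:DLL (MP_07c750_an): uniform bounds of the derivatives of the lifts -/

set_option autoImplicit false

open scoped ContDiff Topology InnerProductSpace
open MeasureTheory Filter Set

namespace Pool.Agent.VD

noncomputable section

theorem DLL_proof (hGLF : GLF_stmt) : DLL_stmt := by
  intro d Γ _ _ K hK m n r
  have hfin := hK.proper (Metric.closedBall 0 (m : ℝ)) (isCompact_closedBall 0 _)
  obtain ⟨-, -, hsm, -⟩ := hGLF d Γ hK.smooth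
  have h1 : ∀ γ : Γ, ∃ C : ℝ,
      (∀ p : P d, ‖p.1‖ ≤ m → ‖p.2‖ ≤ r → ‖iteratedFDeriv ℝ n (lft γ : P d → P d) p‖ ≤ C) ∧
      ∀ x : V d, ‖x‖ ≤ m → ‖iteratedFDeriv ℝ n (fun y : V d => γ • y) x‖ ≤ C := by
    intro γ
    have hc1 : Continuous (iteratedFDeriv ℝ n (lft γ : P d → P d)) :=
      (hsm γ).continuous_iteratedFDeriv (by exact_mod_cast le_top)
    have hc2 : Continuous (iteratedFDeriv ℝ n (fun y : V d => γ • y)) :=
      (hK.smooth γ).continuous_iteratedFDeriv (by exact_mod_cast le_top)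
    obtain ⟨C1, hC1⟩ := ((isCompact_closedBall (0 : V d) (m : ℝ)).prod
      (isCompact_closedBall (0 : V d) r)).exists_bound_of_continuousOn hc1.continuousOn
    obtain ⟨C2, hC2⟩ := (isCompact_closedBall (0 : V d) (m : ℝ)).exists_bound_of_continuousOn
      hc2.continuousOn
    refine ⟨max C1 C2, fun p hp1 hp2 => (hC1 p ⟨mem_closedBall_zero_iff.2 hp1,
      mem_closedBall_zero_iff.2 hp2⟩).trans (le_max_left _ _), fun x hx =>
      (hC2 x (mem_closedBall_zero_iff.2 hx)).trans (le_max_right _ _)⟩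
  choose C hC using h1
  obtain ⟨B, hB⟩ := (hfin.image C).bddAbove
  refine ⟨B, fun γ hγ => ?_⟩
  have hle : C γ ≤ B := by
    obtain ⟨x, h1, h2⟩ := hγ
    exact hB ⟨γ, ⟨x, mem_closedBall_zero_iff.2 h1, mem_closedBall_zero_iff.2 h2⟩, rfl⟩
  exact ⟨fun p h1 h2 => ((hC γ).1 p h1 h2).trans hle, fun x h1 => ((hC γ).2 x h1).trans hle⟩

end

end Pool.Agent.VD
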